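import Pool.Agent.H.MP_17e2c6_gt.D

namespace Pool.Agent.Results.MP_17e2c6_gt.NotBright

open Set Metric MeasureTheory Pointwise Module

noncomputable def kappa (j : ℕ) : ℝ := (volume (closedBall (0 : EuclideanSpace ℝ (Fin j)) 1)).toReal

variable {W : Type*} [NormedAddCommGroup W] [InnerProductSpace ℝ W] [FiniteDimensional ℝ W]
  [MeasurableSpace W] [BorelSpace W]

def IntrinsicVolume (i : ℕ) (L : Set W) (v : ℝ) : Prop :=
  ∃ p : Polynomial ℝ, (∀ ε > 0, p.eval ε = (volume (L + closedBall (0 : W) ε)).toReal) ∧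
    p.coeff (finrank ℝ W - i) = kappa (finrank ℝ W - i) * v

def proj (S : Submodule ℝ W) (K : Set W) : Set S := S.orthogonalProjectionOnto '' K

def ConstGirth (i : ℕ) (K : Set W) : Prop :=
  ∃ c : ℝ, ∀ u : W, ‖u‖ = 1 → IntrinsicVolume i (proj (ℝ ∙ u)ᗮ K) c

def ConstBrightness (i : ℕ) (K : Set W) : Prop :=
  ∃ c, ∀ S : Submodule ℝ W, finrank ℝ S = i → volume (proj S K) = c

theorem result : ∃ K : Set (EuclideanSpace ℝ (Fin 5)), IsCompact K ∧ Convex ℝ K ∧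
    (interior K).Nonempty ∧ ConstGirth 2 K ∧ ¬ ConstBrightness 2 K := by
  obtain ⟨K, a, b, c, ⟨d, hd⟩, S₁, S₂, f1, f2, ne⟩ := Pool.Agent.H.MP_17e2c6_gt.main
  refine ⟨K, a, b, c, ⟨d / kappa 2, fun u hu => ?_⟩, fun ⟨x, hx⟩ => ne ((hx _ f1).trans (hx _ f2).symm)⟩
  obtain ⟨p, h1, h2⟩ := hd u hu
  haveI : Fact (finrank ℝ (EuclideanSpace ℝ (Fin 5)) = 4 + 1) := ⟨by simp⟩
  refine ⟨p, h1, ?_⟩
  rw [Submodule.finrank_orthogonal_span_singleton (n := 4) (by rintro rfl; simp at hu), h2,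
    mul_div_cancel₀]
  exact (ENNReal.toReal_pos (measure_closedBall_pos _ _ one_pos).ne' measure_closedBall_lt_top.ne).ne'

end Pool.Agent.Results.MP_17e2c6_gt.NotBright
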